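import Pool.Agent.helper23.CO.Spec

open Finset Filter Topology

namespace CO

section
variable {V : Type} [Fintype V] [DecidableEq V]

theorem CAB_self (A : Finset V) (σ : V → Bool) : σ ∈ fb A σ := by
  simp [fb]

theorem CAB_mem {A : Finset V} {σ η : V → Bool} : η ∈ fb A σ ↔ ∀ x ∈ A, η x = σ x := by
  simp [fb]

theorem CAB_fb_congr {A : Finset V} {σ τ : V → Bool} (h : ∀ x ∈ A, σ x = τ x) :
    fb A σ = fb A τ := by
  ext η
  rw [CAB_mem, CAB_mem]
  constructor
  · intro h1 x hx
    rw [h1 x hx, h x hx]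
  · intro h1 x hx
    rw [h1 x hx, h x hx]

theorem CAB_mem_comm {A : Finset V} {σ η : V → Bool} : η ∈ fb A σ ↔ σ ∈ fb A η := by
  rw [CAB_mem, CAB_mem]
  constructor
  · intro h x hx
    exact (h x hx).symm
  · intro h x hx
    exact (h x hx).symm

theorem CAB_pos (w : (V → Bool) → ℝ) (hw : ∀ σ, 0 < w σ) (A : Finset V) (σ : V → Bool) :
    0 < ∑ η ∈ fb A σ, w η :=
  sum_pos (fun η _ => hw η) ⟨σ, CAB_self A σ⟩

theorem CAB_pos' (w : (V → Bool) → ℝ) (hw : ∀ σ, 0 < w σ) : 0 < ∑ η : V → Bool, w η :=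
  sum_pos (fun η _ => hw η) ⟨fun _ => true, mem_univ _⟩

end

theorem CAB : CAB_stmt := by
  intro V _ _ w hw A
  refine ⟨?_, ?_, ?_, ?_, ?_, ?_, ?_⟩
  · intro f g σ τ hfg hστ
    unfold ca
    rw [CAB_fb_congr hστ]
    apply div_le_div_of_nonneg_right _ (CAB_pos w hw A τ).le
    exact sum_le_sum fun η _ => mul_le_mul_of_nonneg_left (hfg η) (hw η).le
  · intro f g a b σ
    unfold ca
    have h : ∑ η ∈ fb A σ, w η * (a * f η + b * g η)
        = a * (∑ η ∈ fb A σ, w η * f η) + b * ∑ η ∈ fb A σ, w η * g η := by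
      rw [mul_sum, mul_sum, ← sum_add_distrib]
      exact sum_congr rfl fun η _ => by ring
    rw [h, add_div, mul_div_assoc, mul_div_assoc]
  · intro c σ
    unfold ca
    rw [← sum_mul, mul_div_assoc, mul_comm, div_mul_cancel₀]
    exact (CAB_pos w hw A σ).ne'
  · intro f g hg
    unfold aw
    congr 1
    have h1 : ∀ σ : V → Bool, w σ * (ca w A f σ * g σ)
        = ∑ η : V → Bool, if η ∈ fb A σ then
            w σ * g σ / (∑ ζ ∈ fb A σ, w ζ) * (w η * f η) else 0 := by
      intro σ
      rw [← sum_filter, filter_mem_eq_inter, univ_inter, ← mul_sum]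
      unfold ca
      ring
    rw [sum_congr rfl fun σ _ => h1 σ, sum_comm]
    refine sum_congr rfl fun η _ => ?_
    have h2 : ∀ σ : V → Bool, (if η ∈ fb A σ then
            w σ * g σ / (∑ ζ ∈ fb A σ, w ζ) * (w η * f η) else 0)
        = if σ ∈ fb A η then w σ * (g η / (∑ ζ ∈ fb A η, w ζ) * (w η * f η)) else 0 := by
      intro σ
      by_cases h : σ ∈ fb A η
      · rw [if_pos (CAB_mem_comm.1 h), if_pos h]
        have h3 : fb A σ = fb A η := CAB_fb_congr (CAB_mem.1 h)
        rw [h3, hg σ η (CAB_mem.1 h)]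
        ring
      · rw [if_neg fun h' => h (CAB_mem_comm.1 h'), if_neg h]
    rw [sum_congr rfl fun σ _ => h2 σ, ← sum_filter, filter_mem_eq_inter, univ_inter, ← sum_mul]
    have h4 := (CAB_pos w hw A η).ne'
    field_simp
  · intro f σ
    unfold ca aw
    have h : fb (∅ : Finset V) σ = univ := by
      ext η
      simp [CAB_mem]
    rw [h]
  · intro σ
    unfold ma
    refine ⟨div_pos (CAB_pos w hw A σ) (CAB_pos' w hw), ?_⟩
    rw [div_le_one (CAB_pos' w hw)]
    exact sum_le_sum_of_subset_of_nonneg (subset_univ _) fun η _ _ => (hw η).le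
  · intro x σ _
    unfold ma ca
    have h : fb (insert x A) σ = (fb A σ).filter fun η => η x = σ x := by
      ext η
      rw [mem_filter, CAB_mem, CAB_mem]
      constructor
      · intro h1
        exact ⟨fun y hy => h1 y (mem_insert_of_mem hy), h1 x (mem_insert_self _ _)⟩
      · rintro ⟨h1, h2⟩ y hy
        rcases mem_insert.1 hy with rfl | hy
        · exact h2
        · exact h1 y hy
    rw [h, sum_filter]
    have h1 : ∑ η ∈ fb A σ, w η * (if η x = σ x then (1 : ℝ) else 0)
        = ∑ η ∈ fb A σ, if η x = σ x then w η else 0 := by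
      refine sum_congr rfl fun η _ => ?_
      split_ifs <;> simp
    rw [h1]
    have h4 := (CAB_pos w hw A σ).ne'
    have h5 := (CAB_pos' w hw).ne'
    field_simp

end CO
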