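import Pool.Agent.helper1.CO.TRN

open Finset Filter Topology

namespace CO

section
variable {V : Type} [Fintype V] [DecidableEq V]

/-- correlation inequality for two decreasing functions bounded by `M` -/
theorem OVL_fkg (Q : (V → Bool) → ℝ) (hQ : Hol Q Q) (F G : (V → Bool) → ℝ) (M : ℝ)
    (hF : Antitone F) (hG : Antitone G) (hFM : ∀ σ, F σ ≤ M) (hGM : ∀ σ, G σ ≤ M) :
    aw Q F * aw Q G ≤ aw Q fun σ => F σ * G σ := by
  have hpos := hQ.1
  have h := fkg (α := V → Bool) (β := ℝ) (μ := Q) (f := fun σ => M - F σ) (g := fun σ => M - G σ)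
    (fun σ => (hpos σ).le) (fun σ => sub_nonneg.2 (hFM σ)) (fun σ => sub_nonneg.2 (hGM σ))
    (fun a b hab => sub_le_sub_left (hF hab) M) (fun a b hab => sub_le_sub_left (hG hab) M)
    hQ.2.2
  have hZ := TRN_pos Q hpos
  have e1 : ∑ a, Q a * (M - F a) = M * (∑ a, Q a) - ∑ a, Q a * F a := by
    rw [mul_sum, ← sum_sub_distrib]
    exact sum_congr rfl fun a _ => by ring
  have e2 : ∑ a, Q a * (M - G a) = M * (∑ a, Q a) - ∑ a, Q a * G a := by
    rw [mul_sum, ← sum_sub_distrib]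
    exact sum_congr rfl fun a _ => by ring
  have e3 : ∑ a, Q a * ((M - F a) * (M - G a)) = M * M * (∑ a, Q a) - M * (∑ a, Q a * F a)
      - M * (∑ a, Q a * G a) + ∑ a, Q a * (F a * G a) := by
    rw [mul_sum, mul_sum, mul_sum, ← sum_sub_distrib, ← sum_sub_distrib, ← sum_add_distrib]
    exact sum_congr rfl fun a _ => by ring

  rw [e1, e2, e3] at h
  unfold aw
  rw [div_mul_div_comm, div_le_div_iff₀ (mul_pos hZ hZ) hZ]
  nlinarith [h, hZ]

end

theorem OVL (hCHM : CHM_stmt) (hMLR : MLR_stmt) (hTRN : TRN_stmt) : OVL_stmt := by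
  intro V _ _ P1 P2 Q k hP1 hP2 hQ hk A hX1 hX2 v u1 u2 hv
  have hQ0 := hQ.1
  set M := Real.exp (2 * k + 2) with hM
  have hMpos : 0 < M := Real.exp_pos _
  set F1 : (V → Bool) → ℝ := fun σ => min (dn P1 Q A σ) M with hF1
  set F2 : (V → Bool) → ℝ := fun σ => min (dn P2 Q A σ) M with hF2
  have hd1 := (hCHM V P1 Q hP1.1 hQ0 A (fun _ => 1) fun _ _ _ => rfl).2
  have hd2 := (hCHM V P2 Q hP2.1 hQ0 A (fun _ => 1) fun _ _ _ => rfl).2
  have ha1 : Antitone F1 := fun σ τ h => min_le_min (hMLR V P1 Q hP1 A σ τ h) le_rfl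
  have ha2 : Antitone F2 := fun σ τ h => min_le_min (hMLR V P2 Q hP2 A σ τ h) le_rfl
  have h1 : 1 / 2 ≤ aw Q F1 := hTRN V P1 Q k hP1.1 hQ0 hk A hX1
  have h2 : 1 / 2 ≤ aw Q F2 := hTRN V P2 Q k hP2.1 hQ0 hk A hX2
  have h3 : 1 / 4 ≤ aw Q fun σ => F1 σ * F2 σ := by
    have := OVL_fkg Q hQ F1 F2 M ha1 ha2 (fun σ => min_le_right _ _) fun σ => min_le_right _ _
    nlinarith
  -- the main comparison
  have h4 := TRN_mono Q hQ0 (fun σ => |u1 - u2| * (F1 σ * F2 σ) + 0 * 0)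
    (fun σ => M * (dn P1 Q A σ * |u1 - v σ|) + M * (dn P2 Q A σ * |u2 - v σ|)) fun σ => by
      have p1 := hd1 σ
      have p2 := hd2 σ
      have q1 : 0 ≤ F1 σ := le_min p1.le hMpos.le
      have q2 : 0 ≤ F2 σ := le_min p2.le hMpos.le
      have r1 : F1 σ ≤ M := min_le_right _ _
      have r2 : F2 σ ≤ M := min_le_right _ _
      have s1 : F1 σ ≤ dn P1 Q A σ := min_le_left _ _
      have s2 : F2 σ ≤ dn P2 Q A σ := min_le_left _ _
      have habs : |u1 - u2| ≤ |u1 - v σ| + |u2 - v σ| := by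
        have := abs_sub_le u1 (v σ) u2
        rwa [abs_sub_comm (v σ) u2] at this
      have t1 : F1 σ * F2 σ ≤ M * dn P1 Q A σ := by
        calc F1 σ * F2 σ ≤ dn P1 Q A σ * M := mul_le_mul s1 r2 q2 p1.le
          _ = M * dn P1 Q A σ := mul_comm _ _
      have t2 : F1 σ * F2 σ ≤ M * dn P2 Q A σ := mul_le_mul r1 s2 q2 hMpos.le
      have hFF : 0 ≤ F1 σ * F2 σ := mul_nonneg q1 q2
      calc |u1 - u2| * (F1 σ * F2 σ) + 0 * 0
          ≤ (|u1 - v σ| + |u2 - v σ|) * (F1 σ * F2 σ) := by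
            rw [mul_zero, add_zero]
            exact mul_le_mul_of_nonneg_right habs hFF
        _ = |u1 - v σ| * (F1 σ * F2 σ) + |u2 - v σ| * (F1 σ * F2 σ) := by ring
        _ ≤ |u1 - v σ| * (M * dn P1 Q A σ) + |u2 - v σ| * (M * dn P2 Q A σ) :=
            add_le_add (mul_le_mul_of_nonneg_left t1 (abs_nonneg _))
              (mul_le_mul_of_nonneg_left t2 (abs_nonneg _))
        _ = M * (dn P1 Q A σ * |u1 - v σ|) + M * (dn P2 Q A σ * |u2 - v σ|) := by ring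
  rw [TRN_lin Q (fun σ => F1 σ * F2 σ) (fun _ => 0),
    TRN_lin Q (fun σ => dn P1 Q A σ * |u1 - v σ|) (fun σ => dn P2 Q A σ * |u2 - v σ|),
    ← (hCHM V P1 Q hP1.1 hQ0 A (fun σ => |u1 - v σ|) fun σ τ h => by rw [hv σ τ h]).1,
    ← (hCHM V P2 Q hP2.1 hQ0 A (fun σ => |u2 - v σ|) fun σ τ h => by rw [hv σ τ h]).1] at h4
  have h5 : |u1 - u2| * (1 / 4) ≤ |u1 - u2| * aw Q fun σ => F1 σ * F2 σ :=
    mul_le_mul_of_nonneg_left h3 (abs_nonneg _)
  have e : Real.exp (2 * k + 2) = M := rfl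
  linarith

end CO
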