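import Pool.Agent.helper23.CO.Spec

open Finset Filter Topology

namespace CO

section
variable {V : Type} [Fintype V] [DecidableEq V]

theorem TRN_pos (w : (V → Bool) → ℝ) (hw : ∀ σ, 0 < w σ) : 0 < ∑ η : V → Bool, w η :=
  sum_pos (fun η _ => hw η) ⟨fun _ => true, mem_univ _⟩

theorem TRN_mono (w : (V → Bool) → ℝ) (hw : ∀ σ, 0 < w σ) (f g : (V → Bool) → ℝ)
    (h : ∀ σ, f σ ≤ g σ) : aw w f ≤ aw w g := by
  unfold aw
  apply div_le_div_of_nonneg_right _ (TRN_pos w hw).le
  exact sum_le_sum fun η _ => mul_le_mul_of_nonneg_left (h η) (hw η).le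

theorem TRN_lin (w : (V → Bool) → ℝ) (f g : (V → Bool) → ℝ) (a b : ℝ) :
    aw w (fun σ => a * f σ + b * g σ) = a * aw w f + b * aw w g := by
  unfold aw
  have h : ∑ η : V → Bool, w η * (a * f η + b * g η)
      = a * (∑ η : V → Bool, w η * f η) + b * ∑ η : V → Bool, w η * g η := by
    rw [mul_sum, mul_sum, ← sum_add_distrib]
    exact sum_congr rfl fun η _ => by ring
  rw [h, add_div, mul_div_assoc, mul_div_assoc]

theorem TRN_const (w : (V → Bool) → ℝ) (hw : ∀ σ, 0 < w σ) (c : ℝ) :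
    aw w (fun _ => c) = c := by
  unfold aw
  rw [← sum_mul, mul_div_assoc, mul_comm, div_mul_cancel₀]
  exact (TRN_pos w hw).ne'

theorem TRN_dn (P Q : (V → Bool) → ℝ) (A : Finset V) (σ τ : V → Bool)
    (h : ∀ x ∈ A, σ x = τ x) : dn P Q A σ = dn P Q A τ := by
  have h1 : fb A σ = fb A τ := by
    ext η
    simp only [fb, mem_filter, mem_univ, true_and]
    constructor
    · intro h1 x hx
      rw [h1 x hx, h x hx]
    · intro h1 x hx
      rw [h1 x hx, h x hx]
  unfold dn ma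
  rw [h1]

theorem TRN_point {y L : ℝ} (hy : 0 < y) (hL : 0 < L) :
    y - (y * Real.log y + 1) / L ≤ min y (Real.exp L) := by
  have h1 : 0 ≤ y * Real.log y + 1 := by
    have h2 := Real.one_sub_inv_le_log_of_pos hy
    have h3 : y * (1 - y⁻¹) ≤ y * Real.log y := mul_le_mul_of_nonneg_left h2 hy.le
    have h4 : y * (1 - y⁻¹) = y - 1 := by
      field_simp
    linarith
  rw [le_min_iff]
  constructor
  · have := div_nonneg h1 hL.le
    linarith
  · rcases le_or_gt y (Real.exp L) with h | h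
    · have := div_nonneg h1 hL.le
      linarith
    · have h5 : L < Real.log y := (Real.lt_log_iff_exp_lt hy).2 h
      have h6 : y ≤ (y * Real.log y + 1) / L := by
        rw [le_div_iff₀ hL]
        nlinarith
      have := Real.exp_pos L
      linarith

end

theorem TRN (hCHM : CHM_stmt) : TRN_stmt := by
  intro V _ _ P Q k hP hQ hk A hX
  have h1 := (hCHM V P Q hP hQ A (fun _ => 1) fun _ _ _ => rfl).1
  have hdn := (hCHM V P Q hP hQ A (fun _ => 1) fun _ _ _ => rfl).2
  have h2 := (hCHM V P Q hP hQ A (fun σ => Real.log (dn P Q A σ)) fun σ τ h => by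
    rw [TRN_dn P Q A σ τ h]).1
  have hL : 0 < 2 * k + 2 := by linarith
  have h3 := TRN_mono Q hQ
    (fun σ => 1 * (dn P Q A σ * 1) + -(1 / (2 * k + 2)) *
      (1 * (dn P Q A σ * Real.log (dn P Q A σ)) + 1 * 1))
    (fun σ => min (dn P Q A σ) (Real.exp (2 * k + 2))) fun σ => by
      have := TRN_point (hdn σ) hL
      calc 1 * (dn P Q A σ * 1) + -(1 / (2 * k + 2)) *
            (1 * (dn P Q A σ * Real.log (dn P Q A σ)) + 1 * 1)
          = dn P Q A σ - (dn P Q A σ * Real.log (dn P Q A σ) + 1) / (2 * k + 2) := by ring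
        _ ≤ _ := this
  rw [TRN_lin Q (fun σ => dn P Q A σ * 1)
    (fun σ => 1 * (dn P Q A σ * Real.log (dn P Q A σ)) + 1 * 1),
    TRN_lin Q (fun σ => dn P Q A σ * Real.log (dn P Q A σ)) (fun _ => 1), ← h1, ← h2,
    TRN_const P hP, TRN_const Q hQ] at h3
  refine le_trans ?_ h3
  have h4 : (1 * aw P (fun σ => Real.log (dn P Q A σ)) + 1 * 1) / (2 * k + 2) ≤ 1 / 2 := by
    rw [div_le_iff₀ hL]
    linarith
  have h5 : 1 * 1 + -(1 / (2 * k + 2)) * (1 * aw P (fun σ => Real.log (dn P Q A σ)) + 1 * 1)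
      = 1 - (1 * aw P (fun σ => Real.log (dn P Q A σ)) + 1 * 1) / (2 * k + 2) := by ring
  rw [h5]
  linarith

end CO
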